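import Mathlib

/-!
# Counting in a finite field with `q^2` elements, `q` a power of 2
-/

set_option autoImplicit false

open Finset

namespace Pool.Agent.R80.Uni

variable {K : Type} [Field K] [Fintype K] [DecidableEq K]

theorem card_sol_le {n : ℕ} (p : Polynomial K) (hp : p.degree < n) (Z : Finset K)
    (h : ∀ x ∈ Z, x ^ n + p.eval x = 0) : Z.card ≤ n := by
  have hm : (Polynomial.X ^ n + p : Polynomial K).Monic := Polynomial.monic_X_pow_add hp
  have h1 : Z.card ≤ (Polynomial.X ^ n + p : Polynomial K).natDegree := by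
    apply Polynomial.card_le_degree_of_subset_roots
    intro x hx
    rw [Polynomial.mem_roots hm.ne_zero, Polynomial.IsRoot.def, Polynomial.eval_add,
      Polynomial.eval_pow, Polynomial.eval_X]
    exact h x hx
  have h2 : (Polynomial.X ^ n + p : Polynomial K).natDegree = n := by
    apply Polynomial.natDegree_eq_of_degree_eq_some
    rw [Polynomial.degree_add_eq_left_of_degree_lt, Polynomial.degree_X_pow]
    rwa [Polynomial.degree_X_pow]
  rwa [h2] at h1

/-- the standing hypotheses: `K` has `q^2` elements, `q ≥ 2` is a power of 2 -/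
structure Fld (K : Type) [Field K] [Fintype K] (q : ℕ) : Prop where
  two : ∀ x : K, x + x = 0
  one_lt : 1 < q
  card : Fintype.card K = q ^ 2
  add_pow : ∀ x y : K, (x + y) ^ q = x ^ q + y ^ q

variable {q : ℕ}

theorem Fld.pow_pow (h : Fld K q) (x : K) : (x ^ q) ^ q = x := by
  rw [← pow_mul, ← pow_two, ← h.card, FiniteField.pow_card]

theorem Fld.eq_of_add (h : Fld K q) {x y : K} (hxy : x + y = 0) : x = y := by
  have : x + y + y = y := by rw [hxy, zero_add]
  rwa [add_assoc, h.two, add_zero] at this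

theorem Fld.add_eq (h : Fld K q) {x y z : K} : x + y = z ↔ x = z + y := by
  constructor
  · rintro rfl
    rw [add_assoc, h.two, add_zero]
  · rintro rfl
    rw [add_assoc, h.two, add_zero]

/-- the elements of the field with `q` elements -/
def fix (K : Type) [Field K] [Fintype K] [DecidableEq K] (q : ℕ) : Finset K :=
  univ.filter fun x => x ^ q = x

theorem mem_fix {x : K} : x ∈ fix K q ↔ x ^ q = x := by simp [fix]

theorem Fld.card_fix_le (h : Fld K q) : (fix K q).card ≤ q := by
  refine card_sol_le (n := q) (Polynomial.X) ?_ _ ?_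
  · rw [Polynomial.degree_X]
    exact_mod_cast h.one_lt
  · intro x hx
    rw [Polynomial.eval_X, mem_fix.1 hx, h.two]

theorem Fld.fiber_tr_le (h : Fld K q) (c : K) :
    (univ.filter fun y : K => y ^ q + y = c).card ≤ q := by
  refine card_sol_le (n := q) (Polynomial.X + Polynomial.C c) ?_ _ ?_
  · refine lt_of_le_of_lt (Polynomial.degree_add_le _ _) ?_
    rw [Polynomial.degree_X]
    refine max_lt (by exact_mod_cast h.one_lt) ?_
    exact lt_of_le_of_lt Polynomial.degree_C_le (by exact_mod_cast (by have := h.one_lt; omega : 0 < q))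
  · intro x hx
    rw [mem_filter] at hx
    rw [Polynomial.eval_add, Polynomial.eval_X, Polynomial.eval_C, ← add_assoc, hx.2, h.two]

theorem Fld.fiber_nm_le (h : Fld K q) (c : K) :
    (univ.filter fun y : K => y ^ (q + 1) = c).card ≤ q + 1 := by
  refine card_sol_le (n := q + 1) (Polynomial.C c) ?_ _ ?_
  · exact lt_of_le_of_lt Polynomial.degree_C_le (by exact_mod_cast Nat.succ_pos q)
  · intro x hx
    rw [mem_filter] at hx
    rw [Polynomial.eval_C, hx.2, h.two]

theorem Fld.tr_mem (h : Fld K q) (y : K) : y ^ q + y ∈ fix K q := by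
  rw [mem_fix, h.add_pow, h.pow_pow, add_comm]

theorem Fld.nm_mem (h : Fld K q) (y : K) : y ^ (q + 1) ∈ fix K q := by
  rw [mem_fix, pow_succ, mul_pow, h.pow_pow, mul_comm]

theorem Fld.card_fix (h : Fld K q) :
    (fix K q).card = q ∧ ∀ c ∈ fix K q, (univ.filter fun y : K => y ^ q + y = c).card = q := by
  have h1 : ∑ c ∈ fix K q, (univ.filter fun y : K => y ^ q + y = c).card = q ^ 2 := by
    rw [← h.card, ← Finset.card_univ]
    exact (Finset.card_eq_sum_card_fiberwise fun y _ => h.tr_mem y).symm
  have hq : 0 < q := by have := h.one_lt; omega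
  have h2 : ∑ c ∈ fix K q, (univ.filter fun y : K => y ^ q + y = c).card ≤
      (fix K q).card * q := by
    rw [← smul_eq_mul]
    exact Finset.sum_le_card_nsmul _ _ _ fun c _ => h.fiber_tr_le c
  have h3 := h.card_fix_le
  have h4 : (fix K q).card = q := by
    apply le_antisymm h3
    rw [h1] at h2
    nlinarith
  refine ⟨h4, ?_⟩
  by_contra hcon
  push Not at hcon
  obtain ⟨c, hc, hne⟩ := hcon
  have h5 : ∑ c ∈ fix K q, (univ.filter fun y : K => y ^ q + y = c).card <
      ∑ c ∈ fix K q, q :=
    Finset.sum_lt_sum (fun c _ => h.fiber_tr_le c) ⟨c, hc, lt_of_le_of_ne (h.fiber_tr_le c) hne⟩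
  rw [h1, Finset.sum_const, h4, smul_eq_mul, pow_two] at h5
  exact lt_irrefl _ h5

theorem Fld.card_tr (h : Fld K q) {c : K} (hc : c ^ q = c) :
    (univ.filter fun y : K => y ^ q + y = c).card = q :=
  h.card_fix.2 c (mem_fix.2 hc)

theorem Fld.card_nm (h : Fld K q) {c : K} (hc0 : c ≠ 0) (hc : c ^ q = c) :
    (univ.filter fun y : K => y ^ (q + 1) = c).card = q + 1 := by
  have hq : 0 < q := by have := h.one_lt; omega
  have h1 : ∑ c ∈ (fix K q).erase 0, (univ.filter fun y : K => y ^ (q + 1) = c).card = q ^ 2 - 1 := by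
    have e1 : ∀ c ∈ (fix K q).erase 0, (univ.filter fun y : K => y ^ (q + 1) = c).card =
        (((univ : Finset K).erase 0).filter fun y : K => y ^ (q + 1) = c).card := by
      intro c hc
      congr 1
      ext y
      simp only [mem_filter, mem_univ, true_and, mem_erase, and_true]
      constructor
      · intro hy
        refine ⟨?_, hy⟩
        rintro rfl
        rw [zero_pow (Nat.succ_ne_zero q)] at hy
        exact (mem_erase.1 hc).1 hy.symm
      · exact fun hy => hy.2
    rw [Finset.sum_congr rfl e1, ← Finset.card_eq_sum_card_fiberwise (s := (univ : Finset K).erase 0)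
      (t := (fix K q).erase 0) (f := fun y : K => y ^ (q + 1)), Finset.card_erase_of_mem (mem_univ _),
      Finset.card_univ, h.card]
    intro y hy
    rw [Finset.mem_coe, mem_erase] at hy ⊢
    exact ⟨pow_ne_zero _ hy.1, h.nm_mem y⟩
  have h0 : (0 : K) ∈ fix K q := by
    rw [mem_fix, zero_pow (by omega)]
  have h4 : ((fix K q).erase 0).card = q - 1 := by
    rw [Finset.card_erase_of_mem h0, h.card_fix.1]
  by_contra hne
  have h5 : ∑ c ∈ (fix K q).erase 0, (univ.filter fun y : K => y ^ (q + 1) = c).card <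
      ∑ c ∈ (fix K q).erase 0, (q + 1) :=
    Finset.sum_lt_sum (fun c _ => h.fiber_nm_le c)
      ⟨c, mem_erase.2 ⟨hc0, mem_fix.2 hc⟩, lt_of_le_of_ne (h.fiber_nm_le c) hne⟩
  rw [h1, Finset.sum_const, h4, smul_eq_mul] at h5
  obtain ⟨r, rfl⟩ : ∃ r, q = r + 1 := ⟨q - 1, by omega⟩
  rw [Nat.add_sub_cancel] at h5
  have : (r + 1) ^ 2 - 1 = r * (r + 1 + 1) := by
    have : (r + 1) ^ 2 = r * (r + 1 + 1) + 1 := by ring
    omega
  omega

/-- there is such a field for every power of 2 -/
theorem exists_fld (m : ℕ) (hm : 0 < m) :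
    ∃ (K : Type) (_ : Field K) (_ : Fintype K) (_ : DecidableEq K), Fld K (2 ^ m) := by
  classical
  have : Fact (Nat.Prime 2) := ⟨Nat.prime_two⟩
  let K := GaloisField 2 (2 * m)
  have : Fintype K := Fintype.ofFinite K
  refine ⟨K, inferInstance, inferInstance, Classical.decEq K, ⟨?_, ?_, ?_, ?_⟩⟩
  · intro x
    exact CharTwo.add_self_eq_zero x
  · exact Nat.one_lt_two_pow (by omega)
  · rw [← Nat.card_eq_fintype_card, GaloisField.card 2 (2 * m) (by omega), ← pow_mul, mul_comm]
  · intro x y
    exact add_pow_char_pow x y 2 m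

end Pool.Agent.R80.Uni
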