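import Mathlib

/-!
# Linear spaces on finite sets without O'Nan configurations
-/

set_option autoImplicit false

open Finset

namespace Pool.Agent.R80.Uni

variable {V W : Type} [DecidableEq V] [DecidableEq W]

/-- `𝓑` is a family of subsets of `X` of size `t` such that any two distinct points of `X` lie in
exactly one of them. -/
def LinOn (X : Finset V) (t : ℕ) (𝓑 : Finset (Finset V)) : Prop :=
  (∀ Y ∈ 𝓑, Y ⊆ X ∧ Y.card = t) ∧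
    ∀ a ∈ X, ∀ b ∈ X, a ≠ b → ∃ Y ∈ 𝓑, a ∈ Y ∧ b ∈ Y ∧ ∀ Z ∈ 𝓑, a ∈ Z → b ∈ Z → Z = Y

/-- Six distinct points that form four triples, any two of which share a point, each triple in a
member of `𝓑`, lie in one member of `𝓑`. -/
def NoQ (𝓑 : Finset (Finset V)) : Prop :=
  ∀ X₁ ∈ 𝓑, ∀ X₂ ∈ 𝓑, ∀ X₃ ∈ 𝓑, ∀ X₄ ∈ 𝓑, ∀ A B C D E F : V, [A, B, C, D, E, F].Nodup →
    A ∈ X₁ → B ∈ X₁ → C ∈ X₁ → A ∈ X₂ → D ∈ X₂ → E ∈ X₂ → B ∈ X₃ → D ∈ X₃ → F ∈ X₃ →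
    C ∈ X₄ → E ∈ X₄ → F ∈ X₄ →
    ∃ X ∈ 𝓑, A ∈ X ∧ B ∈ X ∧ C ∈ X ∧ D ∈ X ∧ E ∈ X ∧ F ∈ X

theorem LinOn.unique {X : Finset V} {t : ℕ} {𝓑 : Finset (Finset V)} (h : LinOn X t 𝓑)
    {Y Z : Finset V} (hY : Y ∈ 𝓑) (hZ : Z ∈ 𝓑) {a b : V} (hab : a ≠ b) (h1 : a ∈ Y) (h2 : b ∈ Y)
    (h3 : a ∈ Z) (h4 : b ∈ Z) : Z = Y := by
  obtain ⟨Y', _, _, _, hu⟩ := h.2 a ((h.1 Y hY).1 h1) b ((h.1 Y hY).1 h2) hab
  rw [hu Z hZ h3 h4, hu Y hY h1 h2]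

/-- transfer to another set of the same size -/
theorem LinOn.transfer {X : Finset V} {X' : Finset W} {t : ℕ} {𝓑 : Finset (Finset V)}
    (h : LinOn X t 𝓑) (hN : NoQ 𝓑) (hc : X.card = X'.card) :
    ∃ 𝓑' : Finset (Finset W), LinOn X' t 𝓑' ∧ NoQ 𝓑' := by
  classical
  by_cases hX' : X'.Nonempty
  swap
  · rw [Finset.not_nonempty_iff_eq_empty] at hX'
    subst hX'
    refine ⟨∅, ⟨fun Y hY => absurd hY (Finset.notMem_empty Y), fun a ha => absurd ha (Finset.notMem_empty a)⟩,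
      fun Y hY => absurd hY (Finset.notMem_empty Y)⟩
  obtain ⟨w0, hw0⟩ := hX'
  let e : X ≃ X' := Finset.equivOfCardEq hc
  let f : V → W := fun v => if hv : v ∈ X then (e ⟨v, hv⟩ : W) else w0
  have hfX : ∀ v (hv : v ∈ X), f v = (e ⟨v, hv⟩ : W) := fun v hv => dif_pos hv
  have hf1 : ∀ v ∈ X, f v ∈ X' := fun v hv => by rw [hfX v hv]; exact (e ⟨v, hv⟩).2
  have hf2 : ∀ a ∈ X, ∀ b ∈ X, f a = f b → a = b := by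
    intro a ha b hb hab
    rw [hfX a ha, hfX b hb] at hab
    have := e.injective (Subtype.ext hab)
    exact congrArg Subtype.val this
  have hf3 : ∀ w ∈ X', ∃ v ∈ X, f v = w := by
    intro w hw
    refine ⟨(e.symm ⟨w, hw⟩ : V), (e.symm ⟨w, hw⟩).2, ?_⟩
    rw [hfX _ (e.symm ⟨w, hw⟩).2]
    simp
  have hf4 : ∀ Y ∈ 𝓑, ∀ a ∈ X, f a ∈ Y.image f → a ∈ Y := by
    intro Y hY a ha hfa
    obtain ⟨b, hb, hba⟩ := Finset.mem_image.1 hfa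
    rwa [← hf2 b ((h.1 Y hY).1 hb) a ha hba]
  refine ⟨𝓑.image (fun Y => Y.image f), ⟨?_, ?_⟩, ?_⟩
  · intro Y' hY'
    obtain ⟨Y, hY, rfl⟩ := Finset.mem_image.1 hY'
    refine ⟨?_, ?_⟩
    · intro w hw
      obtain ⟨v, hv, rfl⟩ := Finset.mem_image.1 hw
      exact hf1 v ((h.1 Y hY).1 hv)
    · rw [Finset.card_image_of_injOn, (h.1 Y hY).2]
      intro a ha b hb hab
      exact hf2 a ((h.1 Y hY).1 ha) b ((h.1 Y hY).1 hb) hab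
  · intro a' ha' b' hb' hab
    obtain ⟨a, ha, rfl⟩ := hf3 a' ha'
    obtain ⟨b, hb, rfl⟩ := hf3 b' hb'
    have hab' : a ≠ b := fun e => hab (by rw [e])
    obtain ⟨Y, hY, haY, hbY, hu⟩ := h.2 a ha b hb hab'
    refine ⟨Y.image f, Finset.mem_image_of_mem _ hY, Finset.mem_image_of_mem _ haY,
      Finset.mem_image_of_mem _ hbY, ?_⟩
    intro Z' hZ' haZ hbZ
    obtain ⟨Z, hZ, rfl⟩ := Finset.mem_image.1 hZ'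
    rw [hu Z hZ (hf4 Z hZ a ha haZ) (hf4 Z hZ b hb hbZ)]
  · intro X₁ h₁ X₂ h₂ X₃ h₃ X₄ h₄ A B C D E F hd a1 a2 a3 b1 b2 b3 c1 c2 c3 d1 d2 d3
    obtain ⟨Y₁, k₁, rfl⟩ := Finset.mem_image.1 h₁
    obtain ⟨Y₂, k₂, rfl⟩ := Finset.mem_image.1 h₂
    obtain ⟨Y₃, k₃, rfl⟩ := Finset.mem_image.1 h₃
    obtain ⟨Y₄, k₄, rfl⟩ := Finset.mem_image.1 h₄
    obtain ⟨A, hA, rfl⟩ := Finset.mem_image.1 a1
    obtain ⟨B, hB, rfl⟩ := Finset.mem_image.1 a2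
    obtain ⟨C, hC, rfl⟩ := Finset.mem_image.1 a3
    obtain ⟨D, hD, rfl⟩ := Finset.mem_image.1 b2
    obtain ⟨E, hE, rfl⟩ := Finset.mem_image.1 b3
    obtain ⟨F, hF, rfl⟩ := Finset.mem_image.1 c3
    have hA' := (h.1 Y₁ k₁).1 hA
    have hB' := (h.1 Y₁ k₁).1 hB
    have hC' := (h.1 Y₁ k₁).1 hC
    have hD' := (h.1 Y₂ k₂).1 hD
    have hE' := (h.1 Y₂ k₂).1 hE
    have hF' := (h.1 Y₃ k₃).1 hF
    have hd' : [A, B, C, D, E, F].Nodup := by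
      apply List.Nodup.of_map f
      simpa using hd
    obtain ⟨Y, hY, y1, y2, y3, y4, y5, y6⟩ := hN Y₁ k₁ Y₂ k₂ Y₃ k₃ Y₄ k₄ A B C D E F hd' hA hB hC
      (hf4 Y₂ k₂ A hA' b1) hD hE (hf4 Y₃ k₃ B hB' c1) (hf4 Y₃ k₃ D hD' c2) hF
      (hf4 Y₄ k₄ C hC' d1) (hf4 Y₄ k₄ E hE' d2) (hf4 Y₄ k₄ F hF' d3)
    exact ⟨Y.image f, Finset.mem_image_of_mem _ hY, Finset.mem_image_of_mem _ y1,
      Finset.mem_image_of_mem _ y2, Finset.mem_image_of_mem _ y3, Finset.mem_image_of_mem _ y4,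
      Finset.mem_image_of_mem _ y5, Finset.mem_image_of_mem _ y6⟩

/-- blocks of blocks -/
theorem LinOn.compose {X : Finset V} {s t : ℕ} {𝓛 : Finset (Finset V)}
    (h : LinOn X s 𝓛) (hN : NoQ 𝓛)
    (h' : ∀ L ∈ 𝓛, ∃ 𝓑 : Finset (Finset V), LinOn L t 𝓑 ∧ NoQ 𝓑) :
    ∃ 𝓑 : Finset (Finset V), LinOn X t 𝓑 ∧ NoQ 𝓑 := by
  classical
  choose! 𝓒 h1 h2 using h'
  refine ⟨𝓛.biUnion 𝓒, ⟨?_, ?_⟩, ?_⟩
  · intro Y hY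
    obtain ⟨L, hL, hYL⟩ := Finset.mem_biUnion.1 hY
    exact ⟨((h1 L hL).1 Y hYL).1.trans (h.1 L hL).1, ((h1 L hL).1 Y hYL).2⟩
  · intro a ha b hb hab
    obtain ⟨L, hL, haL, hbL, hu⟩ := h.2 a ha b hb hab
    obtain ⟨Y, hY, haY, hbY, hu'⟩ := (h1 L hL).2 a haL b hbL hab
    refine ⟨Y, Finset.mem_biUnion.2 ⟨L, hL, hY⟩, haY, hbY, ?_⟩
    intro Z hZ haZ hbZ
    obtain ⟨M, hM, hZM⟩ := Finset.mem_biUnion.1 hZ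
    have hML : M = L := hu M hM (((h1 M hM).1 Z hZM).1 haZ) (((h1 M hM).1 Z hZM).1 hbZ)
    subst hML
    exact hu' Z hZM haZ hbZ
  · intro X₁ k₁ X₂ k₂ X₃ k₃ X₄ k₄ A B C D E F hd a1 a2 a3 b1 b2 b3 c1 c2 c3 d1 d2 d3
    obtain ⟨L₁, l₁, m₁⟩ := Finset.mem_biUnion.1 k₁
    obtain ⟨L₂, l₂, m₂⟩ := Finset.mem_biUnion.1 k₂
    obtain ⟨L₃, l₃, m₃⟩ := Finset.mem_biUnion.1 k₃
    obtain ⟨L₄, l₄, m₄⟩ := Finset.mem_biUnion.1 k₄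
    have s₁ := ((h1 L₁ l₁).1 X₁ m₁).1
    have s₂ := ((h1 L₂ l₂).1 X₂ m₂).1
    have s₃ := ((h1 L₃ l₃).1 X₃ m₃).1
    have s₄ := ((h1 L₄ l₄).1 X₄ m₄).1
    obtain ⟨L, hL, y1, y2, y3, y4, y5, y6⟩ := hN L₁ l₁ L₂ l₂ L₃ l₃ L₄ l₄ A B C D E F hd (s₁ a1)
      (s₁ a2) (s₁ a3) (s₂ b1) (s₂ b2) (s₂ b3) (s₃ c1) (s₃ c2) (s₃ c3) (s₄ d1) (s₄ d2) (s₄ d3)
    have hd' := hd
    simp only [List.nodup_cons, List.mem_cons, List.not_mem_nil, or_false, not_or] at hd'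
    have e₁ : L₁ = L := h.unique hL l₁ hd'.1.1 y1 y2 (s₁ a1) (s₁ a2)
    have e₂ : L₂ = L := h.unique hL l₂ hd'.1.2.2.1 y1 y4 (s₂ b1) (s₂ b2)
    have e₃ : L₃ = L := h.unique hL l₃ hd'.2.1.2.1 y2 y4 (s₃ c1) (s₃ c2)
    have e₄ : L₄ = L := h.unique hL l₄ hd'.2.2.1.2.1 y3 y5 (s₄ d1) (s₄ d2)
    subst e₁ e₂ e₃ e₄
    obtain ⟨Y, hY, hYall⟩ := h2 L₄ hL X₁ m₁ X₂ m₂ X₃ m₃ X₄ m₄ A B C D E F hd a1 a2 a3 b1 b2 b3 c1 c2 c3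
      d1 d2 d3
    exact ⟨Y, Finset.mem_biUnion.2 ⟨L₄, hL, hY⟩, hYall⟩

end Pool.Agent.R80.Uni
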