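import Pool.Agent.R80.Uni.Field
import Pool.Agent.R80.Uni.Lin

/-!
# The Hermitian unital over a field with `q^2` elements, `q` a power of 2

Points: `none` and the solutions `(x,y)` of `y^q + y = x^(q+1)`; blocks: the intersections with the
lines that contain two points. It is a Steiner system with blocks of size `q + 1` on `q^3 + 1`
points without O'Nan configurations.
-/

set_option autoImplicit false

open Finset

namespace Pool.Agent.R80.Uni

variable {K : Type} [Field K] [Fintype K] [DecidableEq K] {q : ℕ}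

theorem Fld.sub_pow (h : Fld K q) (x y : K) : (x - y) ^ q = x ^ q - y ^ q := by
  have := h.add_pow (x - y) y
  rw [sub_add_cancel] at this
  rw [this, add_sub_cancel_right]

/-- the points of the unital -/
def U (K : Type) [Field K] [Fintype K] [DecidableEq K] (q : ℕ) : Finset (Option (K × K)) :=
  insert none ((univ.filter fun p : K × K => p.2 ^ q + p.2 = p.1 ^ (q + 1)).image some)

theorem none_mem_U : none ∈ U K q := by simp [U]

theorem some_mem_U {x y : K} : some (x, y) ∈ U K q ↔ y ^ q + y = x ^ (q + 1) := by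
  simp [U]

theorem Fld.card_U (h : Fld K q) : (U K q).card = q ^ 3 + 1 := by
  unfold U
  rw [Finset.card_insert_of_notMem (by simp), Finset.card_image_of_injective _ (Option.some_injective _)]
  congr 1
  have h1 : (univ.filter fun p : K × K => p.2 ^ q + p.2 = p.1 ^ (q + 1)).card =
      ∑ x : K, (univ.filter fun y : K => y ^ q + y = x ^ (q + 1)).card := by
    rw [Finset.card_eq_sum_card_fiberwise (f := Prod.fst) (t := univ) (fun p _ => mem_univ _)]
    refine Finset.sum_congr rfl fun x _ => ?_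
    rw [← Finset.card_map ⟨fun y : K => (x, y), fun a b hab => (Prod.ext_iff.1 hab).2⟩]
    congr 1
    ext ⟨a, b⟩
    rw [mem_map, mem_filter, mem_filter]
    constructor
    · rintro ⟨⟨_, h1⟩, h2⟩
      dsimp only at h1 h2
      subst h2
      exact ⟨b, by rw [mem_filter]; exact ⟨mem_univ _, h1⟩, rfl⟩
    · rintro ⟨y, h1, h2⟩
      rw [mem_filter] at h1
      have h3 : ((x, y) : K × K) = (a, b) := h2
      rw [Prod.mk.injEq] at h3
      obtain ⟨rfl, rfl⟩ := h3
      exact ⟨⟨mem_univ _, h1.2⟩, rfl⟩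
  rw [h1, Finset.sum_congr rfl fun x _ => h.card_tr (mem_fix.1 (h.nm_mem x)), Finset.sum_const,
    Finset.card_univ, h.card, smul_eq_mul]
  ring

/-- vertical lines -/
def vert (q : ℕ) (a : K) : Finset (Option (K × K)) :=
  insert none ((univ.filter fun y : K => y ^ q + y = a ^ (q + 1)).image fun y => some (a, y))

/-- the other lines -/
def slo (q : ℕ) (m b : K) : Finset (Option (K × K)) :=
  (univ.filter fun x : K => (m * x + b) ^ q + (m * x + b) = x ^ (q + 1)).image
    fun x => some (x, m * x + b)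

theorem none_mem_vert {a : K} : none ∈ vert q a := by simp [vert]

theorem some_mem_vert {a x y : K} : some (x, y) ∈ vert q a ↔ x = a ∧ y ^ q + y = a ^ (q + 1) := by
  simp only [vert, mem_insert, reduceCtorEq, mem_image, mem_filter, mem_univ, true_and,
    Option.some.injEq, Prod.mk.injEq, false_or]
  constructor
  · rintro ⟨z, h1, rfl, rfl⟩
    exact ⟨rfl, h1⟩
  · rintro ⟨rfl, h1⟩
    exact ⟨y, h1, rfl, rfl⟩

theorem none_mem_slo {m b : K} : none ∉ slo q m b := by simp [slo]

theorem some_mem_slo {m b x y : K} :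
    some (x, y) ∈ slo q m b ↔ y = m * x + b ∧ y ^ q + y = x ^ (q + 1) := by
  simp only [slo, mem_image, mem_filter, mem_univ, true_and, Option.some.injEq, Prod.mk.injEq]
  constructor
  · rintro ⟨z, h1, rfl, rfl⟩
    exact ⟨rfl, h1⟩
  · rintro ⟨rfl, h1⟩
    exact ⟨x, h1, rfl, rfl⟩

theorem Fld.card_vert (h : Fld K q) (a : K) : (vert q a).card = q + 1 := by
  unfold vert
  rw [Finset.card_insert_of_notMem (by simp), Finset.card_image_of_injective,
    h.card_tr (mem_fix.1 (h.nm_mem a))]
  intro y z hyz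
  simpa using hyz

theorem Fld.card_slo (h : Fld K q) (m b : K) (h2 : 2 ≤ (slo q m b).card) :
    (slo q m b).card = q + 1 := by
  have hinj : Function.Injective fun x : K => (some (x, m * x + b) : Option (K × K)) := by
    intro y z hyz
    simp only [Option.some.injEq, Prod.mk.injEq] at hyz
    exact hyz.1
  have hmm : (m ^ q) ^ q = m := h.pow_pow m
  have e1 : ∀ x : K, (m * x + b) ^ q + (m * x + b) = x ^ (q + 1) ↔
      (x + m ^ q) ^ (q + 1) = b ^ q + b + m ^ (q + 1) := by
    intro x
    have e2 : (x + m ^ q) ^ (q + 1) = x ^ (q + 1) + m ^ q * x ^ q + m * x + m ^ (q + 1) := by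
      rw [pow_succ, h.add_pow, hmm, pow_succ, pow_succ]
      ring
    have e3 : (m * x + b) ^ q = m ^ q * x ^ q + b ^ q := by
      rw [h.add_pow, mul_pow]
    rw [e2, e3]
    have t1 := h.two (m ^ q * x ^ q)
    have t2 := h.two (m * x)
    have t3 := h.two b
    have t4 := h.two (b ^ q)
    have t5 := h.two (x ^ (q + 1))
    constructor
    · intro hx
      linear_combination (-1 : K) * hx + t1 + t2
    · intro hx
      linear_combination (-1 : K) * hx + t1 + t2
  have e4 : (slo q m b).card = (univ.filter fun x : K => x ^ (q + 1) = b ^ q + b + m ^ (q + 1)).card := by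
    unfold slo
    rw [Finset.card_image_of_injective _ hinj, ← Finset.card_map (Equiv.addRight (m ^ q)).toEmbedding]
    congr 1
    ext x
    simp only [mem_map, mem_filter, mem_univ, true_and, Equiv.coe_toEmbedding, Equiv.coe_addRight]
    constructor
    · rintro ⟨z, hz, rfl⟩
      exact (e1 z).1 hz
    · intro hx
      refine ⟨x - m ^ q, ?_, sub_add_cancel _ _⟩
      rw [e1, sub_add_cancel]
      exact hx
  have hfix : (b ^ q + b + m ^ (q + 1)) ^ q = b ^ q + b + m ^ (q + 1) := by
    rw [h.add_pow, mem_fix.1 (h.tr_mem b), mem_fix.1 (h.nm_mem m)]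
  rw [e4] at h2 ⊢
  by_cases ht : b ^ q + b + m ^ (q + 1) = 0
  · exfalso
    rw [ht] at h2
    have : (univ.filter fun x : K => x ^ (q + 1) = 0) = {0} := by
      ext x
      simp
    rw [this, Finset.card_singleton] at h2
    omega
  · exact h.card_nm ht hfix

/-- the blocks of the unital -/
def blocks (K : Type) [Field K] [Fintype K] [DecidableEq K] (q : ℕ) :
    Finset (Finset (Option (K × K))) :=
  (univ.image fun a : K => vert q a) ∪
    ((univ.image fun p : K × K => slo q p.1 p.2).filter fun L => 2 ≤ L.card)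

theorem mem_blocks {L : Finset (Option (K × K))} :
    L ∈ blocks K q ↔ (∃ a, L = vert q a) ∨ (∃ m b, L = slo q m b) ∧ 2 ≤ L.card := by
  simp only [blocks, mem_union, mem_image, mem_univ, true_and, mem_filter, Prod.exists]
  constructor
  · rintro (⟨a, rfl⟩ | ⟨⟨m, b, rfl⟩, h⟩)
    · exact Or.inl ⟨a, rfl⟩
    · exact Or.inr ⟨⟨m, b, rfl⟩, h⟩
  · rintro (⟨a, rfl⟩ | ⟨⟨m, b, rfl⟩, h⟩)
    · exact Or.inl ⟨a, rfl⟩
    · exact Or.inr ⟨⟨m, b, rfl⟩, h⟩

theorem Fld.linOn (h : Fld K q) : LinOn (U K q) (q + 1) (blocks K q) := by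
  constructor
  · intro L hL
    rcases mem_blocks.1 hL with ⟨a, rfl⟩ | ⟨⟨m, b, rfl⟩, h2⟩
    · refine ⟨?_, h.card_vert a⟩
      rintro (_ | ⟨x, y⟩) hP
      · exact none_mem_U
      · rw [some_mem_vert] at hP
        rw [some_mem_U, hP.1]
        exact hP.2
    · refine ⟨?_, h.card_slo m b h2⟩
      rintro (_ | ⟨x, y⟩) hP
      · exact none_mem_U
      · rw [some_mem_slo] at hP
        rw [some_mem_U]
        exact hP.2
  · -- the line through two points
    have key1 : ∀ x y : K, some (x, y) ∈ U K q → ∀ Z ∈ blocks K q, none ∈ Z → some (x, y) ∈ Z →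
        Z = vert q x := by
      intro x y _ Z hZ h1 h2
      rcases mem_blocks.1 hZ with ⟨a, rfl⟩ | ⟨⟨m, b, rfl⟩, _⟩
      · rw [(some_mem_vert.1 h2).1]
      · exact absurd h1 none_mem_slo
    rintro (_ | ⟨x, y⟩) ha (_ | ⟨x', y'⟩) hb hab
    · exact absurd rfl hab
    · refine ⟨vert q x', mem_blocks.2 (Or.inl ⟨x', rfl⟩), none_mem_vert,
        some_mem_vert.2 ⟨rfl, some_mem_U.1 hb⟩, fun Z hZ h1 h2 => key1 x' y' hb Z hZ h1 h2⟩
    · refine ⟨vert q x, mem_blocks.2 (Or.inl ⟨x, rfl⟩), some_mem_vert.2 ⟨rfl, some_mem_U.1 ha⟩,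
        none_mem_vert, fun Z hZ h1 h2 => key1 x y ha Z hZ h2 h1⟩
    · by_cases hx : x = x'
      · subst hx
        have hy : y ≠ y' := fun e => hab (by rw [e])
        refine ⟨vert q x, mem_blocks.2 (Or.inl ⟨x, rfl⟩), some_mem_vert.2 ⟨rfl, some_mem_U.1 ha⟩,
          some_mem_vert.2 ⟨rfl, some_mem_U.1 hb⟩, ?_⟩
        intro Z hZ h1 h2
        rcases mem_blocks.1 hZ with ⟨a, rfl⟩ | ⟨⟨m, b, rfl⟩, _⟩
        · rw [(some_mem_vert.1 h1).1]
        · exfalso
          rw [some_mem_slo] at h1 h2
          exact hy (h1.1.trans h2.1.symm)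
      · have hx' : x - x' ≠ 0 := sub_ne_zero.2 hx
        have e1 : y = (y - y') / (x - x') * x + (y - (y - y') / (x - x') * x) := by ring
        have e2 : y' = (y - y') / (x - x') * x' + (y - (y - y') / (x - x') * x) := by
          field_simp
          ring
        have m1 : some (x, y) ∈ slo q ((y - y') / (x - x')) (y - (y - y') / (x - x') * x) :=
          some_mem_slo.2 ⟨e1, some_mem_U.1 ha⟩
        have m2 : some (x', y') ∈ slo q ((y - y') / (x - x')) (y - (y - y') / (x - x') * x) :=
          some_mem_slo.2 ⟨e2, some_mem_U.1 hb⟩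
        refine ⟨_, mem_blocks.2 (Or.inr ⟨⟨_, _, rfl⟩, Finset.one_lt_card.2
          ⟨_, m1, _, m2, hab⟩⟩), m1, m2, ?_⟩
        intro Z hZ h1 h2
        rcases mem_blocks.1 hZ with ⟨a, rfl⟩ | ⟨⟨m, b, rfl⟩, _⟩
        · exfalso
          rw [some_mem_vert] at h1 h2
          exact hx (h1.1.trans h2.1.symm)
        · rw [some_mem_slo] at h1 h2
          have hm : m = (y - y') / (x - x') := by
            rw [eq_div_iff hx', h1.1, h2.1]
            ring
          have hbb : b = y - (y - y') / (x - x') * x := by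
            rw [← hm, h1.1]
            ring
          rw [← hm, hbb]
          rw [← hm]

end Pool.Agent.R80.Uni
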