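import Pool.Agent.R80.Uni.Herm

/-!
# The Hermitian unital has no O'Nan configuration

If the six intersection points of four lines were isotropic, the Gram matrix of three of them would
be an alternating 3 x 3 matrix up to scaling, hence singular.
-/

set_option autoImplicit false

open Finset

namespace Pool.Agent.R80.Uni

variable {K : Type} [Field K] [Fintype K] [DecidableEq K] {q : ℕ}

/-- the algebraic core; `s` is the involution of the field -/
theorem core {K : Type} [Field K] (s : K → K) (two : ∀ x : K, x + x = 0)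
    (sadd : ∀ x y, s (x + y) = s x + s y) (smul : ∀ x y, s (x * y) = s x * s y)
    (ssub : ∀ x y, s (x - y) = s x - s y)
    (s0 : ∀ x, s x = 0 → x = 0)
    (a0 a1 a2 b0 b1 b2 d0 d1 d2 α β γ δ ε ζ : K)
    (hα : α ≠ 0) (hβ : β ≠ 0) (hγ : γ ≠ 0) (hδ : δ ≠ 0) (hε : ε ≠ 0) (hζ : ζ ≠ 0)
    (haa : a0 * s a2 + a2 * s a0 + a1 * s a1 = 0)
    (hbb : b0 * s b2 + b2 * s b0 + b1 * s b1 = 0)
    (hdd : d0 * s d2 + d2 * s d0 + d1 * s d1 = 0)
    (hcc : (α * a0 + β * b0) * s (α * a2 + β * b2) + (α * a2 + β * b2) * s (α * a0 + β * b0) +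
      (α * a1 + β * b1) * s (α * a1 + β * b1) = 0)
    (hee : (γ * a0 + δ * d0) * s (γ * a2 + δ * d2) + (γ * a2 + δ * d2) * s (γ * a0 + δ * d0) +
      (γ * a1 + δ * d1) * s (γ * a1 + δ * d1) = 0)
    (hff : (ε * b0 + ζ * d0) * s (ε * b2 + ζ * d2) + (ε * b2 + ζ * d2) * s (ε * b0 + ζ * d0) +
      (ε * b1 + ζ * d1) * s (ε * b1 + ζ * d1) = 0)
    (hR : α * δ * ε + β * γ * ζ = 0) :
    a0 * (b1 * d2 - b2 * d1) - a1 * (b0 * d2 - b2 * d0) + a2 * (b0 * d1 - b1 * d0) = 0 := by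
  have eqa : ∀ {x y : K}, x + y = 0 → x = y := by
    intro x y hxy
    have h1 : x + y + y = y := by rw [hxy, zero_add]
    rwa [add_assoc, two, add_zero] at h1
  have hsα : s α ≠ 0 := fun h => hα (s0 _ h)
  have hsβ : s β ≠ 0 := fun h => hβ (s0 _ h)
  have hsγ : s γ ≠ 0 := fun h => hγ (s0 _ h)
  have hsδ : s δ ≠ 0 := fun h => hδ (s0 _ h)
  have hsε : s ε ≠ 0 := fun h => hε (s0 _ h)
  have hsζ : s ζ ≠ 0 := fun h => hζ (s0 _ h)
  have hR1 : α * δ * ε = β * γ * ζ := eqa hR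
  have hR2 : s α * s δ * s ε = s β * s γ * s ζ := by
    rw [← smul, ← smul, hR1, smul, smul]
  -- the Gram matrix
  set h12 := a0 * s b2 + a2 * s b0 + a1 * s b1 with h12d
  set h21 := b0 * s a2 + b2 * s a0 + b1 * s a1 with h21d
  set h13 := a0 * s d2 + a2 * s d0 + a1 * s d1 with h13d
  set h31 := d0 * s a2 + d2 * s a0 + d1 * s a1 with h31d
  set h23 := b0 * s d2 + b2 * s d0 + b1 * s d1 with h23d
  set h32 := d0 * s b2 + d2 * s b0 + d1 * s b1 with h32d
  have P1 : α * s β * h12 = β * s α * h21 := by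
    apply eqa
    simp only [sadd, smul] at hcc
    rw [h12d, h21d]
    linear_combination hcc - α * s α * haa - β * s β * hbb
  have P2 : γ * s δ * h13 = δ * s γ * h31 := by
    apply eqa
    simp only [sadd, smul] at hee
    rw [h13d, h31d]
    linear_combination hee - γ * s γ * haa - δ * s δ * hdd
  have P3 : ε * s ζ * h23 = ζ * s ε * h32 := by
    apply eqa
    simp only [sadd, smul] at hff
    rw [h23d, h32d]
    linear_combination hff - ε * s ε * hbb - ζ * s ζ * hdd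
  have hN : (α * δ * ε) * (s β * s γ * s ζ) ≠ 0 := by
    refine mul_ne_zero (mul_ne_zero (mul_ne_zero hα hδ) hε) (mul_ne_zero (mul_ne_zero hsβ hsγ) hsζ)
  have h1 : (h12 * h23 * h31) * ((α * δ * ε) * (s β * s γ * s ζ)) =
      (h21 * h32 * h13) * ((α * δ * ε) * (s β * s γ * s ζ)) := by
    calc (h12 * h23 * h31) * ((α * δ * ε) * (s β * s γ * s ζ)) =
        (α * s β * h12) * (ε * s ζ * h23) * (δ * s γ * h31) := by ring
      _ = (β * s α * h21) * (ζ * s ε * h32) * (γ * s δ * h13) := by rw [P1, P3, ← P2]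
      _ = (h21 * h32 * h13) * ((β * γ * ζ) * (s α * s δ * s ε)) := by ring
      _ = (h21 * h32 * h13) * ((α * δ * ε) * (s β * s γ * s ζ)) := by rw [hR2, ← hR1]
  have h2 : h12 * h23 * h31 = h21 * h32 * h13 := mul_right_cancel₀ hN h1
  -- determinant of the Gram matrix
  have h3 : (a0 * (b1 * d2 - b2 * d1) - a1 * (b0 * d2 - b2 * d0) + a2 * (b0 * d1 - b1 * d0)) *
      (s a0 * (s b1 * s d2 - s b2 * s d1) - s a1 * (s b0 * s d2 - s b2 * s d0) +
        s a2 * (s b0 * s d1 - s b1 * s d0)) = 0 := by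
    have h4 : h12 * h23 * h31 + h21 * h32 * h13 = 0 := by rw [h2]; exact two _
    rw [h12d, h23d, h31d, h21d, h32d, h13d] at h4
    linear_combination (-1 : K) * h4 - haa * ((b0 * s b2 + b2 * s b0 + b1 * s b1) * (d0 * s d2 + d2 * s d0 + d1 * s d1)
      - (b0 * s d2 + b2 * s d0 + b1 * s d1) * (d0 * s b2 + d2 * s b0 + d1 * s b1)) +
      hbb * ((a0 * s d2 + a2 * s d0 + a1 * s d1) * (d0 * s a2 + d2 * s a0 + d1 * s a1)) +
      hdd * ((a0 * s b2 + a2 * s b0 + a1 * s b1) * (b0 * s a2 + b2 * s a0 + b1 * s a1))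
  rcases mul_eq_zero.1 h3 with h | h
  · exact h
  · apply s0
    rw [sadd, ssub, smul, ssub, smul, smul, smul, ssub, smul, smul, smul, ssub, smul, smul]
    exact h

/-- homogeneous coordinates -/
def c0 : Option (K × K) → K
  | none => 0
  | some _ => 1

/-- homogeneous coordinates -/
def c1 : Option (K × K) → K
  | none => 0
  | some p => p.1

/-- homogeneous coordinates -/
def c2 : Option (K × K) → K
  | none => 1
  | some p => p.2

/-- the determinant of three points -/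
def dt (P Q R : Option (K × K)) : K :=
  c0 P * (c1 Q * c2 R - c2 Q * c1 R) - c1 P * (c0 Q * c2 R - c2 Q * c0 R) +
    c2 P * (c0 Q * c1 R - c1 Q * c0 R)

theorem Fld.iso (h : Fld K q) {P : Option (K × K)} (hP : P ∈ U K q) :
    c0 P * c2 P ^ q + c2 P * c0 P ^ q + c1 P * c1 P ^ q = 0 := by
  have hq : q ≠ 0 := by have := h.one_lt; omega
  rcases P with _ | ⟨x, y⟩
  · simp [c0, c1, c2, zero_pow hq]
  · rw [some_mem_U] at hP
    simp only [c0, c1, c2, one_mul, one_pow, mul_one]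
    rw [hP, pow_succ, mul_comm x]
    exact h.two _

/-- three distinct points on a block are dependent with nonzero coefficients -/
theorem lin {L : Finset (Option (K × K))} (hL : L ∈ blocks K q) {P Q R : Option (K × K)}
    (hP : P ∈ L) (hQ : Q ∈ L) (hR : R ∈ L) (hPQ : P ≠ Q) (hPR : P ≠ R) (hQR : Q ≠ R) :
    ∃ α β : K, α ≠ 0 ∧ β ≠ 0 ∧ c0 R = α * c0 P + β * c0 Q ∧ c1 R = α * c1 P + β * c1 Q ∧
      c2 R = α * c2 P + β * c2 Q := by
  rcases mem_blocks.1 hL with ⟨a, rfl⟩ | ⟨⟨m, b, rfl⟩, _⟩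
  · rcases P with _ | ⟨x, y⟩ <;> rcases Q with _ | ⟨x', y'⟩ <;> rcases R with _ | ⟨x'', y''⟩
    · exact absurd rfl hPQ
    · exact absurd rfl hPQ
    · exact absurd rfl hPR
    · obtain ⟨rfl, _⟩ := some_mem_vert.1 hQ
      obtain ⟨rfl, _⟩ := some_mem_vert.1 hR
      refine ⟨y'' - y', 1, sub_ne_zero.2 fun e => hQR (by rw [e]), one_ne_zero, ?_, ?_, ?_⟩ <;>
        simp [c0, c1, c2]
    · exact absurd rfl hQR
    · obtain ⟨rfl, _⟩ := some_mem_vert.1 hP
      obtain ⟨rfl, _⟩ := some_mem_vert.1 hR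
      refine ⟨1, y'' - y, one_ne_zero, sub_ne_zero.2 fun e => hPR (by rw [e]), ?_, ?_, ?_⟩ <;>
        simp [c0, c1, c2]
    · obtain ⟨rfl, _⟩ := some_mem_vert.1 hP
      obtain ⟨rfl, _⟩ := some_mem_vert.1 hQ
      have hy : y - y' ≠ 0 := sub_ne_zero.2 fun e => hPQ (by rw [e])
      refine ⟨1 / (y - y'), - (1 / (y - y')), one_div_ne_zero hy, neg_ne_zero.2 (one_div_ne_zero hy),
        ?_, ?_, ?_⟩ <;> simp only [c0, c1, c2] <;> field_simp <;> ring
    · obtain ⟨rfl, _⟩ := some_mem_vert.1 hP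
      obtain ⟨rfl, _⟩ := some_mem_vert.1 hQ
      obtain ⟨rfl, _⟩ := some_mem_vert.1 hR
      have hy : y - y' ≠ 0 := sub_ne_zero.2 fun e => hPQ (by rw [e])
      have hy1 : y'' - y' ≠ 0 := sub_ne_zero.2 fun e => hQR (by rw [e])
      have hy2 : y - y'' ≠ 0 := sub_ne_zero.2 fun e => hPR (by rw [e])
      refine ⟨(y'' - y') / (y - y'), (y - y'') / (y - y'), div_ne_zero hy1 hy, div_ne_zero hy2 hy,
        ?_, ?_, ?_⟩ <;> simp only [c0, c1, c2] <;> field_simp <;> ring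
  · rcases P with _ | ⟨x, y⟩
    · exact absurd hP none_mem_slo
    rcases Q with _ | ⟨x', y'⟩
    · exact absurd hQ none_mem_slo
    rcases R with _ | ⟨x'', y''⟩
    · exact absurd hR none_mem_slo
    obtain ⟨rfl, _⟩ := some_mem_slo.1 hP
    obtain ⟨rfl, _⟩ := some_mem_slo.1 hQ
    obtain ⟨rfl, _⟩ := some_mem_slo.1 hR
    have hy : x - x' ≠ 0 := sub_ne_zero.2 fun e => hPQ (by rw [e])
    have hy1 : x'' - x' ≠ 0 := sub_ne_zero.2 fun e => hQR (by rw [e])
    have hy2 : x - x'' ≠ 0 := sub_ne_zero.2 fun e => hPR (by rw [e])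
    refine ⟨(x'' - x') / (x - x'), (x - x'') / (x - x'), div_ne_zero hy1 hy, div_ne_zero hy2 hy,
      ?_, ?_, ?_⟩ <;> simp only [c0, c1, c2] <;> field_simp <;> ring

/-- three points with determinant zero are on a block -/
theorem nondeg {L : Finset (Option (K × K))} (hL : L ∈ blocks K q) {P Q D : Option (K × K)}
    (hP : P ∈ L) (hQ : Q ∈ L) (hPQ : P ≠ Q) (hD : D ∈ U K q) (hdt : dt P Q D = 0) : D ∈ L := by
  rcases mem_blocks.1 hL with ⟨a, rfl⟩ | ⟨⟨m, b, rfl⟩, _⟩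
  · rcases D with _ | ⟨x, y⟩
    · exact none_mem_vert
    · have hx : x = a := by
        rcases P with _ | ⟨x1, y1⟩ <;> rcases Q with _ | ⟨x2, y2⟩
        · exact absurd rfl hPQ
        · obtain ⟨rfl, _⟩ := some_mem_vert.1 hQ
          simp only [dt, c0, c1, c2] at hdt
          linear_combination hdt
        · obtain ⟨rfl, _⟩ := some_mem_vert.1 hP
          simp only [dt, c0, c1, c2] at hdt
          linear_combination (-1 : K) * hdt
        · obtain ⟨rfl, _⟩ := some_mem_vert.1 hP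
          obtain ⟨rfl, _⟩ := some_mem_vert.1 hQ
          have hy : y1 - y2 ≠ 0 := sub_ne_zero.2 fun e => hPQ (by rw [e])
          simp only [dt, c0, c1, c2] at hdt
          have : (y1 - y2) * (x - x2) = 0 := by linear_combination hdt
          rcases mul_eq_zero.1 this with h | h
          · exact absurd h hy
          · exact sub_eq_zero.1 h
      subst hx
      exact some_mem_vert.2 ⟨rfl, some_mem_U.1 hD⟩
  · rcases P with _ | ⟨x1, y1⟩
    · exact absurd hP none_mem_slo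
    rcases Q with _ | ⟨x2, y2⟩
    · exact absurd hQ none_mem_slo
    obtain ⟨rfl, _⟩ := some_mem_slo.1 hP
    obtain ⟨rfl, _⟩ := some_mem_slo.1 hQ
    have hy : x2 - x1 ≠ 0 := sub_ne_zero.2 fun e => hPQ (by rw [e])
    rcases D with _ | ⟨x, y⟩
    · simp only [dt, c0, c1, c2] at hdt
      exfalso
      apply hy
      linear_combination hdt
    · simp only [dt, c0, c1, c2] at hdt
      have : (x2 - x1) * (y - (m * x + b)) = 0 := by linear_combination hdt
      rcases mul_eq_zero.1 this with h | h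
      · exact absurd h hy
      · exact some_mem_slo.2 ⟨sub_eq_zero.1 h, some_mem_U.1 hD⟩

theorem Fld.noQ (h : Fld K q) : NoQ (blocks K q) := by
  intro X₁ k₁ X₂ k₂ X₃ k₃ X₄ k₄ A B C D E F hd a1 a2 a3 b1 b2 b3 e1 e2 e3 d1 d2 d3
  have hlin := h.linOn
  have hd' := hd
  simp only [List.nodup_cons, List.mem_cons, List.not_mem_nil, or_false, not_or] at hd'
  obtain ⟨⟨nAB, nAC, nAD, nAE, nAF⟩, ⟨nBC, nBD, nBE, nBF⟩, ⟨nCD, nCE, nCF⟩, ⟨nDE, nDF⟩, nEF, _⟩ := hd'
  by_cases hD : D ∈ X₁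
  · refine ⟨X₁, k₁, a1, a2, a3, hD, ?_, ?_⟩
    · rw [← hlin.unique k₁ k₂ nAD a1 hD b1 b2]
      exact b3
    · rw [← hlin.unique k₁ k₃ nBD a2 hD e1 e2]
      exact e3
  · exfalso
    have uA := (hlin.1 _ k₁).1 a1
    have uB := (hlin.1 _ k₁).1 a2
    have uC := (hlin.1 _ k₁).1 a3
    have uD := (hlin.1 _ k₂).1 b2
    have uE := (hlin.1 _ k₂).1 b3
    have uF := (hlin.1 _ k₃).1 e3
    obtain ⟨α, β, hα, hβ, C0, C1, C2⟩ := lin k₁ a1 a2 a3 nAB nAC nBC
    obtain ⟨γ, δ, hγ, hδ, E0, E1, E2⟩ := lin k₂ b1 b2 b3 nAD nAE nDE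
    obtain ⟨ε, ζ, hε, hζ, F0, F1, F2⟩ := lin k₃ e1 e2 e3 nBD nBF nDF
    obtain ⟨κ, μ, hκ, hμ, G0, G1, G2⟩ := lin k₄ d1 d2 d3 nCE nCF nEF
    have hdt : dt A B D ≠ 0 := fun h0 => hD (nondeg k₁ a1 a2 nAB uD h0)
    have hR : α * δ * ε + β * γ * ζ = 0 := by
      have h1 : (α * δ * ε + β * γ * ζ) * dt A B D = - dt C E F := by
        unfold dt
        rw [C0, C1, C2, E0, E1, E2, F0, F1, F2]
        ring
      have h2 : dt C E F = 0 := by
        unfold dt
        rw [G0, G1, G2]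
        ring
      rw [h2, neg_zero] at h1
      exact (mul_eq_zero.1 h1).resolve_right hdt
    have hcc := h.iso uC
    have hee := h.iso uE
    have hff := h.iso uF
    rw [C0, C1, C2] at hcc
    rw [E0, E1, E2] at hee
    rw [F0, F1, F2] at hff
    refine hdt (core (fun x => x ^ q) h.two h.add_pow (fun x y => mul_pow x y q) h.sub_pow
      (fun x hx => pow_eq_zero_iff (by have := h.one_lt; omega : q ≠ 0) |>.1 hx)
      (c0 A) (c1 A) (c2 A) (c0 B) (c1 B) (c2 B) (c0 D) (c1 D) (c2 D) α β γ δ ε ζ hα hβ hγ hδ hε hζ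
      (h.iso uA) (h.iso uB) (h.iso uD) hcc hee hff hR)

end Pool.Agent.R80.Uni
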