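import Pool.Agent.R80.Uni.ONan

/-!
# Steiner systems with blocks of size 5 on `4^(3^i) + 1` points without O'Nan configurations

Start with one block on 5 points. The blocks of the unital over the field with `q^2` elements have
`q + 1` points; fill each of them with a copy of the Steiner system on `q + 1` points. This gives one
on `q^3 + 1` points.
-/

set_option autoImplicit false

open Finset

namespace Pool.Agent.R80.Uni

/-- there is a linear space with lines of size 5 on `v` points without O'Nan configurations -/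
def Good (v : ℕ) : Prop :=
  ∃ 𝓑 : Finset (Finset (Fin v)), LinOn (univ : Finset (Fin v)) 5 𝓑 ∧ NoQ 𝓑

theorem good_five : Good 5 := by
  refine ⟨{univ}, ⟨?_, ?_⟩, ?_⟩
  · intro Y hY
    rw [Finset.mem_singleton] at hY
    subst hY
    exact ⟨Finset.Subset.refl _, by simp⟩
  · intro a _ b _ _
    refine ⟨univ, Finset.mem_singleton_self _, mem_univ _, mem_univ _, ?_⟩
    intro Z hZ _ _
    exact Finset.mem_singleton.1 hZ
  · intro X₁ _ X₂ _ X₃ _ X₄ _ A B C D E F _ _ _ _ _ _ _ _ _ _ _ _ _
    exact ⟨univ, Finset.mem_singleton_self _, mem_univ _, mem_univ _, mem_univ _, mem_univ _,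
      mem_univ _, mem_univ _⟩

theorem good_step {m : ℕ} (hm : 0 < m) (h : Good (2 ^ m + 1)) : Good (2 ^ (3 * m) + 1) := by
  classical
  obtain ⟨K, hK1, hK2, hK3, hF⟩ := exists_fld m hm
  obtain ⟨𝓑, h1, h2⟩ := h
  have h3 := hF.linOn
  obtain ⟨𝓒, h4, h5⟩ := h3.compose hF.noQ (t := 5) (fun L hL =>
    h1.transfer h2 (by rw [Finset.card_univ, Fintype.card_fin, (h3.1 L hL).2]))
  obtain ⟨𝓓, h6, h7⟩ := h4.transfer h5 (X' := (univ : Finset (Fin (2 ^ (3 * m) + 1)))) (by
    rw [Finset.card_univ, Fintype.card_fin, hF.card_U, ← pow_mul, mul_comm])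
  exact ⟨𝓓, h6, h7⟩

theorem good_tower (i : ℕ) : Good (4 ^ 3 ^ i + 1) := by
  have h : ∀ i : ℕ, Good (2 ^ (2 * 3 ^ i) + 1) := by
    intro i
    induction i with
    | zero => exact good_five
    | succ i ih =>
      have := good_step (by positivity) ih
      rwa [show 3 * (2 * 3 ^ i) = 2 * 3 ^ (i + 1) by ring] at this
  have h2 := h i
  rwa [pow_mul] at h2

end Pool.Agent.R80.Uni
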